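import Pool.Agent.H986.CJC.Col
import Pool.Agent.H986.CJC.LatT

set_option autoImplicit false

/-!
# MP_b1aa48_co: canonical join complexes are not closed under induced subcomplexes

There are a finite semidistributive lattice `L` and a set `W` of join-irreducible elements of `L`
such that the subcomplex of the canonical join complex of `L` induced on `W` is not isomorphic to
the canonical join complex of any finite semidistributive lattice. The induced complex is the independence complex of the
Grötzsch graph; by `Pool.Agent.H986.CJC.three_colour`, the independence complex of a triangle-free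
graph that is not 3-colourable is never a canonical join complex.
-/

open Pool.Agent.H986.CJC

namespace Pool.Agent.Results.MP_b1aa48_co.NotHereditary

/-- Both semidistributive laws. -/
def Semidistributive (L : Type*) [Lattice L] : Prop :=
  (∀ x y z : L, x ⊔ y = x ⊔ z → x ⊔ (y ⊓ z) = x ⊔ y) ∧
  (∀ x y z : L, x ⊓ y = x ⊓ z → x ⊓ (y ⊔ z) = x ⊓ y)

/-- `A` is the canonical join representation of `w`: its join is `w`, no proper subset of `A` has
join `w`, and `A` refines every join representation `B` of `w`. -/
def IsCanonicalJoinRep {L : Type*} [Lattice L] [BoundedOrder L] (w : L) (A : Finset L) : Prop :=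
  A.sup id = w ∧ (∀ B : Finset L, B ⊂ A → B.sup id ≠ w) ∧
    ∀ B : Finset L, B.sup id = w → ∀ a ∈ A, ∃ b ∈ B, a ≤ b

/-- `A` is a face of the canonical join complex: the canonical join representation of some
element. -/
def Face {L : Type*} [Lattice L] [BoundedOrder L] (A : Finset L) : Prop :=
  ∃ w : L, IsCanonicalJoinRep w A

/-- The arrows of the factorization system on twelve elements. -/
def T (a b : Fin 12) : Prop :=
  Nat.testBit (![529, 167, 4, 668, 16, 48, 1093, 128, 1300, 512, 3744, 2080] a) b = true

instance : DecidableRel T := fun a b => by unfold T; infer_instance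

/-- The Grötzsch graph. -/
def Adj (a b : Fin 11) : Prop :=
  Nat.testBit (![594, 165, 330, 660, 297, 1042, 1029, 1034, 1044, 1033, 992] a) b = true

instance : DecidableRel Adj := fun a b => by unfold Adj; infer_instance

theorem T_refl : ∀ a, T a a := by decide

theorem T_anti : ∀ a b, T a b → T b a → a = b := by decide

theorem T_fact : Pool.Agent.H986.CJC.Fact T := by
  unfold Pool.Agent.H986.CJC.Fact
  decide

theorem T_adj : ∀ a b : Fin 11, a ≠ b → (Adj a b ↔ T a.castSucc b.castSucc ∨
    T b.castSucc a.castSucc) := by decide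

theorem Adj_tri : ∀ u v w : Fin 11, Adj u v → Adj v w → Adj u w → False := by decide

theorem aux1 : ∀ a a' b b' e : Fin 3, a ≠ a' → b ≠ a' → b' ≠ a → b ≠ e → b' ≠ e →
    (if a = e then b else a) ≠ (if a' = e then b' else a') := by decide

theorem aux2 : ∀ a b e : Fin 3, b ≠ e → (if a = e then b else a) ≠ e := by decide

theorem aux3 (d0 d1 d2 d3 d4 e : Fin 3) (h0 : d0 ≠ e) (h1 : d1 ≠ e) (h2 : d2 ≠ e) (h3 : d3 ≠ e)
    (h4 : d4 ≠ e) (h5 : d0 ≠ d1) (h6 : d1 ≠ d2) (h7 : d2 ≠ d3) (h8 : d3 ≠ d4) (h9 : d4 ≠ d0) :
    False := by
  omega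

/-- The Grötzsch graph is not 3-colourable. -/
theorem no_colour (c : Fin 11 → Fin 3) (hc : ∀ u v, u ≠ v → Adj u v → c u ≠ c v) : False := by
  have h : ∀ u v : Fin 11, u ≠ v → Adj u v → c u ≠ c v := hc
  refine aux3 (if c 0 = c 10 then c 5 else c 0) (if c 1 = c 10 then c 6 else c 1)
    (if c 2 = c 10 then c 7 else c 2) (if c 3 = c 10 then c 8 else c 3)
    (if c 4 = c 10 then c 9 else c 4) (c 10) ?_ ?_ ?_ ?_ ?_ ?_ ?_ ?_ ?_ ?_
  · exact aux2 _ _ _ (h 5 10 (by decide) (by decide))
  · exact aux2 _ _ _ (h 6 10 (by decide) (by decide))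
  · exact aux2 _ _ _ (h 7 10 (by decide) (by decide))
  · exact aux2 _ _ _ (h 8 10 (by decide) (by decide))
  · exact aux2 _ _ _ (h 9 10 (by decide) (by decide))
  · exact aux1 _ _ _ _ _ (h 0 1 (by decide) (by decide)) (h 5 1 (by decide) (by decide))
      (h 6 0 (by decide) (by decide)) (h 5 10 (by decide) (by decide))
      (h 6 10 (by decide) (by decide))
  · exact aux1 _ _ _ _ _ (h 1 2 (by decide) (by decide)) (h 6 2 (by decide) (by decide))
      (h 7 1 (by decide) (by decide)) (h 6 10 (by decide) (by decide))
      (h 7 10 (by decide) (by decide))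
  · exact aux1 _ _ _ _ _ (h 2 3 (by decide) (by decide)) (h 7 3 (by decide) (by decide))
      (h 8 2 (by decide) (by decide)) (h 7 10 (by decide) (by decide))
      (h 8 10 (by decide) (by decide))
  · exact aux1 _ _ _ _ _ (h 3 4 (by decide) (by decide)) (h 8 4 (by decide) (by decide))
      (h 9 3 (by decide) (by decide)) (h 8 10 (by decide) (by decide))
      (h 9 10 (by decide) (by decide))
  · exact aux1 _ _ _ _ _ (h 4 0 (by decide) (by decide)) (h 9 0 (by decide) (by decide))
      (h 5 4 (by decide) (by decide)) (h 9 10 (by decide) (by decide))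
      (h 5 10 (by decide) (by decide))

open Classical in
/-- The class of canonical join complexes of finite semidistributive lattices is not closed under
induced subcomplexes: the subcomplex induced on `W` is not isomorphic to the canonical join complex
of any finite semidistributive lattice `L'`. -/
theorem result.{u} :
    ∃ (L : Type) (_ : Lattice L) (_ : BoundedOrder L) (_ : Finite L), Semidistributive L ∧
      ∃ W : Set L, (∀ j ∈ W, SupIrred j) ∧
        ¬ ∃ (L' : Type u) (_ : Lattice L') (_ : BoundedOrder L') (_ : Finite L'),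
          Semidistributive L' ∧
          ∃ f : W ≃ {j : L' // SupIrred j}, ∀ F : Finset W,
            (Face (F.map (Function.Embedding.subtype _)) ↔
              Face (F.map (f.toEmbedding.trans (Function.Embedding.subtype _)))) := by
  have hSD : SemiDist (Lat T) :=
    ⟨join_sd T_refl T_anti T_fact, meet_sd T_refl T_anti T_fact⟩
  refine ⟨Lat T, inferInstance, inferInstance, inferInstance, hSD,
    Set.range (fun v : Fin 11 => jj T v.castSucc), ?_, ?_⟩
  · rintro _ ⟨v, rfl⟩
    exact jj_irred T_refl T_anti _
  · rintro ⟨L', i1, i2, i3, hSD', f, hf⟩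
    let w : Fin 11 → Set.range (fun v : Fin 11 => jj T v.castSucc) := fun v => ⟨_, ⟨v, rfl⟩⟩
    have hw : Function.Injective w := by
      intro u v h
      have h1 : jj T u.castSucc = jj T v.castSucc := congrArg Subtype.val h
      exact Fin.castSucc_injective _ (jj_inj T_refl T_anti h1)
    let g : Fin 11 → L' := fun v => (f (w v)).1
    have hg : Function.Injective g := fun u v h => hw (f.injective (Subtype.ext h))
    have hJ : ∀ v, SupIrred (g v) := fun v => (f (w v)).2
    have hsurj : ∀ z : L', SupIrred z → ∃ v, g v = z := by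
      intro z hz
      obtain ⟨⟨_, ⟨v, rfl⟩⟩, hx⟩ := f.surjective ⟨z, hz⟩
      exact ⟨v, congrArg Subtype.val hx⟩
    have hface : ∀ u v, u ≠ v → (IsFace ({g u, g v} : Finset L') ↔ ¬ Adj u v) := by
      intro u v huv
      have h1 := hf {w u, w v}
      have e1 : (({w u, w v} : Finset _).map (Function.Embedding.subtype _)) =
          ({jj T u.castSucc, jj T v.castSucc} : Finset (Lat T)) := by
        ext x; simp [w]
      have e2 : (({w u, w v} : Finset _).map (f.toEmbedding.trans
          (Function.Embedding.subtype _))) = ({g u, g v} : Finset L') := by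
        ext x; simp [g]
      rw [e1, e2] at h1
      have hne : jj T u.castSucc ≠ jj T v.castSucc := fun h =>
        huv (Fin.castSucc_injective _ (jj_inj T_refl T_anti h))
      have h2 := face_pair_iff hSD (jj_irred T_refl T_anti u.castSucc)
        (jj_irred T_refl T_anti v.castSucc) hne
      rw [R_jj T_refl T_anti T_fact, R_jj T_refl T_anti T_fact] at h2
      have h3 : IsFace ({g u, g v} : Finset L') ↔ ¬ T u.castSucc v.castSucc ∧
          ¬ T v.castSucc u.castSucc := Iff.trans h1.symm h2
      rw [h3, T_adj u v huv, not_or]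
    obtain ⟨c, hc⟩ := three_colour hSD' Adj Adj_tri g hg hJ hsurj hface
    exact no_colour c hc

end Pool.Agent.Results.MP_b1aa48_co.NotHereditary
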